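import Pool.Agent.H24.CL.Targets

/-! Row OS of clv_modules (board of helper24, proof by helper6). -/

set_option autoImplicit false

open Finset MeasureTheory

namespace Pool.Agent.H6.CLV

open Pool.Agent.H24.CL

/-- an integer is zero on the circle -/
theorem ciz (m : ℤ) : (((m : ℝ) : ℝ) : UnitAddCircle) = 0 := by
  rw [AddCircle.coe_eq_zero_iff]
  exact ⟨m, by simp⟩

/-- `m / q` is zero on the circle iff `q` divides `m` -/
theorem cz (q : ℕ) (hq : 1 ≤ q) (m : ℤ) :
    ((((m : ℝ) / (q : ℝ) : ℝ)) : UnitAddCircle) = 0 ↔ (q : ℤ) ∣ m := by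
  have hq0 : (q : ℝ) ≠ 0 := by
    have : 0 < q := hq
    positivity
  rw [AddCircle.coe_eq_zero_iff]
  constructor
  · rintro ⟨n, hn⟩
    refine ⟨n, ?_⟩
    have h1 : (n : ℝ) = (m : ℝ) / (q : ℝ) := by simpa using hn
    rw [eq_div_iff hq0] at h1
    have h2 : (m : ℝ) = ((q : ℤ) * n : ℤ) := by
      push_cast
      linarith
    exact_mod_cast h2
  · rintro ⟨n, rfl⟩
    refine ⟨n, ?_⟩
    push_cast
    rw [mul_div_cancel_left₀ _ hq0]
    simp

/-- an element of `ZMod q` is determined by its value modulo `q` -/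
theorem zval {q : ℕ} [NeZero q] {x y : ZMod q} (h : (q : ℤ) ∣ (x.val : ℤ) - (y.val : ℤ)) :
    x = y := by
  have h1 : (((x.val : ℤ) - (y.val : ℤ) : ℤ) : ZMod q) = 0 :=
    (ZMod.intCast_zmod_eq_zero_iff_dvd _ _).2 h
  push_cast at h1
  rw [ZMod.natCast_zmod_val, ZMod.natCast_zmod_val] at h1
  exact sub_eq_zero.1 h1

/-- first coordinate of the difference of two cells with the same `r` -/
theorem cel_sub0 (q : ℕ) (hq : 1 ≤ q) (r s t s' t' : ℕ) :
    (cel q r s t - cel q r s' t' : X 3) 0 =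
      (((((t : ℤ) - (t' : ℤ) : ℤ) : ℝ) / (q : ℝ) : ℝ) : UnitAddCircle) := by
  have hq0 : (q : ℝ) ≠ 0 := by
    have : 0 < q := hq
    positivity
  simp only [cel, Pi.sub_apply]
  simp only [Fin.val_zero, if_true]
  rw [← AddCircle.coe_sub]
  congr 1
  push_cast
  field_simp
  ring

/-- second coordinate of the difference of two cells -/
theorem cel_sub1 (q : ℕ) (r s t r' s' t' : ℕ) :
    (cel q r s t - cel q r' s' t' : X 3) 1 =
      (((((s : ℤ) - (s' : ℤ) : ℤ) : ℝ) / (q : ℝ) : ℝ) : UnitAddCircle) := by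
  simp only [cel, Pi.sub_apply]
  simp only [Fin.val_one, one_ne_zero, if_true, if_false]
  rw [← AddCircle.coe_sub]
  congr 1
  push_cast
  ring

/-- third coordinate of the difference of two cells -/
theorem cel_sub2 (q : ℕ) (r s t r' s' t' : ℕ) :
    (cel q r s t - cel q r' s' t' : X 3) 2 = 0 := by
  simp [cel]

/-- `q` kills the points `m / q` -/
theorem kill (q : ℕ) (hq : 1 ≤ q) (m : ℤ) :
    q • ((((m : ℝ) / (q : ℝ) : ℝ)) : UnitAddCircle) = 0 := by
  have hq0 : (q : ℝ) ≠ 0 := by
    have : 0 < q := hq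
    positivity
  rw [← AddCircle.coe_nsmul, nsmul_eq_mul, mul_div_cancel₀ _ hq0]
  exact ciz m

/-- differences of cells with the same `r` are killed by `q` -/
theorem cel_H (q : ℕ) (hq : 1 ≤ q) (r s t s' t' : ℕ) :
    (cel q r s t - cel q r s' t' : X 3) ∈ H 3 q 1 := by
  show (nsmulAddMonoidHom (q ^ 1) : X 3 →+ X 3) _ = 0
  rw [pow_one]
  show q • (cel q r s t - cel q r s' t' : X 3) = 0
  funext i
  rw [Pi.smul_apply, Pi.zero_apply]
  fin_cases i
  · show q • (cel q r s t - cel q r s' t' : X 3) 0 = 0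
    rw [cel_sub0 q hq, kill q hq]
  · show q • (cel q r s t - cel q r s' t' : X 3) 1 = 0
    rw [cel_sub1, kill q hq]
  · show q • (cel q r s t - cel q r s' t' : X 3) 2 = 0
    rw [cel_sub2, smul_zero]

/-- differences of cells with the same `r, s` lie on the line -/
theorem cel_Ln (q : ℕ) (hq : 1 ≤ q) (r s t t' : ℕ) :
    (cel q r s t - cel q r s t' : X 3) ∈ Ln 3 q := by
  refine ⟨?_, ?_⟩
  · have h := cel_H q hq r s t s t'
    change (nsmulAddMonoidHom (q ^ 1) : X 3 →+ X 3) _ = 0 at h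
    rw [pow_one] at h
    exact h
  · intro i hi
    fin_cases i
    · exact absurd rfl hi
    · show (cel q r s t - cel q r s t' : X 3) 1 = 0
      rw [cel_sub1]
      simp
    · show (cel q r s t - cel q r s t' : X 3) 2 = 0
      rw [cel_sub2]

/-- the point `(x / q) e_1` -/
noncomputable def l1 (q r : ℕ) : X 3 := fun i => if i.val = 0 then (((r : ℝ) / (q : ℝ) : ℝ) :
  UnitAddCircle) else 0

/-- `phi` of a cell -/
theorem phi_cel (q : ℕ) (hq : 1 ≤ q) (b r s t : ℕ) : phi q b (cel q r s t) = l1 q r := by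
  have hq0 : (q : ℝ) ≠ 0 := by
    have : 0 < q := hq
    positivity
  have hs : q • ((((s : ℝ) / (q : ℝ) : ℝ)) : UnitAddCircle) = 0 := by
    have := kill q hq (s : ℤ)
    simpa using this
  have h0 : q • ((((((r : ℝ) + q * t) / (q : ℝ) ^ 2 : ℝ))) : UnitAddCircle) =
      ((((r : ℝ) / (q : ℝ) : ℝ)) : UnitAddCircle) := by
    rw [← AddCircle.coe_nsmul, nsmul_eq_mul]
    have h1 : (q : ℝ) * (((r : ℝ) + q * t) / (q : ℝ) ^ 2) = (r : ℝ) / q + ((t : ℤ) : ℝ) := by
      push_cast
      field_simp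
    rw [h1, AddCircle.coe_add, ciz, add_zero]
  funext i
  show (∑ j : Fin 3, (Nat.choose (j.val + 1) (i.val + 1) * b ^ (j.val - i.val) *
    q ^ (i.val + 1)) • (cel q r s t) j) = l1 q r i
  rw [Fin.sum_univ_three]
  have c0 : (cel q r s t) (0 : Fin 3) =
      ((((((r : ℝ) + q * t) / (q : ℝ) ^ 2 : ℝ))) : UnitAddCircle) := by
    simp [cel]
  have c1 : (cel q r s t) (1 : Fin 3) = ((((s : ℝ) / (q : ℝ) : ℝ)) : UnitAddCircle) := by
    simp [cel]
  have c2 : (cel q r s t) (2 : Fin 3) = 0 := by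
    simp [cel]
  rw [c0, c1, c2, smul_zero, add_zero]
  fin_cases i
  · show (Nat.choose (0 + 1) (0 + 1) * b ^ (0 - 0) * q ^ (0 + 1)) • _ +
      (Nat.choose (1 + 1) (0 + 1) * b ^ (1 - 0) * q ^ (0 + 1)) • _ = l1 q r 0
    have e1 : Nat.choose (0 + 1) (0 + 1) * b ^ (0 - 0) * q ^ (0 + 1) = q := by simp
    rw [e1, h0, pow_succ q 0, pow_zero, one_mul, mul_smul, hs, smul_zero, add_zero]
    simp [l1]
  · show (Nat.choose (0 + 1) (1 + 1) * b ^ (0 - 1) * q ^ (1 + 1)) • _ +
      (Nat.choose (1 + 1) (1 + 1) * b ^ (1 - 1) * q ^ (1 + 1)) • _ = l1 q r 1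
    have e1 : Nat.choose (0 + 1) (1 + 1) * b ^ (0 - 1) * q ^ (1 + 1) = 0 := by
      simp [Nat.choose]
    rw [e1, zero_smul, zero_add, pow_succ q 1, ← mul_assoc, mul_smul, hs, smul_zero]
    simp [l1]
  · show (Nat.choose (0 + 1) (2 + 1) * b ^ (0 - 2) * q ^ (2 + 1)) • _ +
      (Nat.choose (1 + 1) (2 + 1) * b ^ (1 - 2) * q ^ (2 + 1)) • _ = l1 q r 2
    have e1 : Nat.choose (0 + 1) (2 + 1) * b ^ (0 - 2) * q ^ (2 + 1) = 0 := by
      simp [Nat.choose]
    have e2 : Nat.choose (1 + 1) (2 + 1) * b ^ (1 - 2) * q ^ (2 + 1) = 0 := by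
      simp [Nat.choose]
    rw [e1, e2, zero_smul, zero_smul, zero_add]
    simp [l1]

/-- differences of the points `l1` lie on the line -/
theorem l1_Ln (q : ℕ) (hq : 1 ≤ q) (r r' : ℕ) : (l1 q r - l1 q r' : X 3) ∈ Ln 3 q := by
  have h0 : (l1 q r - l1 q r' : X 3) 0 =
      (((((r : ℤ) - (r' : ℤ) : ℤ) : ℝ) / (q : ℝ) : ℝ) : UnitAddCircle) := by
    simp only [l1, Pi.sub_apply, Fin.val_zero, if_true]
    rw [← AddCircle.coe_sub]
    congr 1
    push_cast
    ring
  refine ⟨?_, ?_⟩
  · funext i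
    rw [Pi.smul_apply, Pi.zero_apply]
    fin_cases i
    · show q • (l1 q r - l1 q r' : X 3) 0 = 0
      rw [h0, kill q hq]
    · simp [l1]
    · simp [l1]
  · intro i hi
    fin_cases i
    · exact absurd rfl hi
    · simp [l1]
    · simp [l1]

/-- the points `l1` are distinct -/
theorem l1_inj (q : ℕ) [NeZero q] (hq : 1 ≤ q) (r r' : ZMod q)
    (h : l1 q r.val = l1 q r'.val) : r = r' := by
  apply zval
  rw [← cz q hq]
  have h0 := congrFun h 0
  simp only [l1, Fin.val_zero, if_true] at h0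
  have h1 : (((((r.val : ℤ) - (r'.val : ℤ) : ℤ) : ℝ) / (q : ℝ) : ℝ) : UnitAddCircle) =
      ((((r.val : ℝ) / (q : ℝ) : ℝ)) : UnitAddCircle) -
      ((((r'.val : ℝ) / (q : ℝ) : ℝ)) : UnitAddCircle) := by
    rw [← AddCircle.coe_sub]
    congr 1
    push_cast
    ring
  rw [h1, h0, sub_self]

/-- Row OS. -/
theorem pf_OS (hOC : T_OC) (hTO : T_TO) : T_OS := by
  classical
  intro q _ hq3 W G₀ G₁ G₂ n₀ n₁ hG0 hG1 hG2 hn0 hn0q hn1 hn1q hC0 hC1 hL1 hL2 hK0 hK1 a
  have hq1 : 1 ≤ q := by omega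
  have : NeZero q := ⟨by omega⟩
  have hqR : (1 : ℝ) ≤ q := by exact_mod_cast hq1
  obtain ⟨hOC1, -, -⟩ := hOC q hq3
  obtain ⟨hTO1, -, -, hTO4, -, -⟩ := hTO 3 q hq1
  have hcube0 : (1 : ℝ) ≤ G₀ ^ 3 := one_le_pow₀ hG0
  have hcube1 : (1 : ℝ) ≤ G₁ ^ 3 := one_le_pow₀ hG1
  have hn1pos : (0 : ℝ) < n₁ := by linarith
  refine
    { hn := hn0
      hnq := hn0q
      hF := by linarith
      hE := hG1
      hR := ?_
      hS := by linarith
      h0 := ?_
      h1 := ?_
      h2 := ?_
      h3 := ?_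
      h4 := ?_ }
  · rw [le_div_iff₀ hn1pos]
    nlinarith
  · intro w hw
    have hw' : a + orb q (fun i => (w.1 i).val) (fun i => (w.2.1 i).val)
        (fun i => (w.2.2 i).val) ∈ W 0 := by
      simpa [A0s] using hw
    obtain ⟨D, hDq, hD, hDn⟩ := hK0 _ hw'
    refine ⟨D.image (fun b : ℕ => (b : ZMod q)), ?_, ?_⟩
    · rw [Finset.card_image_of_injOn]
      · exact hDn
      · intro x hx y hy hxy
        have hx' : x < q := Finset.mem_range.1 (hDq hx)
        have hy' : y < q := Finset.mem_range.1 (hDq hy)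
        have := congrArg ZMod.val hxy
        simpa [ZMod.val_natCast, Nat.mod_eq_of_lt hx', Nat.mod_eq_of_lt hy'] using this
    · intro b hb
      obtain ⟨b0, hb0, rfl⟩ := Finset.mem_image.1 hb
      have hb0q : b0 < q := Finset.mem_range.1 (hDq hb0)
      have hval : ((b0 : ℕ) : ZMod q).val = b0 := by
        rw [ZMod.val_natCast, Nat.mod_eq_of_lt hb0q]
      have h1 := hD b0 hb0
      have h2 := hOC1 (b0 : ZMod q) w
      rw [map_add] at h1
      simp only [A1s, Finset.mem_filter, Finset.mem_univ, true_and]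
      rw [← h2, hval]
      exact h1
  · intro w3 w2 Y hY
    have hY' : ∀ w1 ∈ Y, a + orb q (fun i => (w3 i).val) (fun i => (w2 i).val)
        (fun i => (w1 i).val) ∈ W 0 := by
      intro w1 hw1
      simpa [A0s] using hY w1 hw1
    have key := hC0 (Y.image fun w1 : V3 q => a + orb q (fun i => (w3 i).val)
      (fun i => (w2 i).val) (fun i => (w1 i).val)) (by
        intro y hy
        obtain ⟨w1, hw1, rfl⟩ := Finset.mem_image.1 hy
        exact hY' w1 hw1) (by
        intro y hy y' hy'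
        obtain ⟨w1, hw1, rfl⟩ := Finset.mem_image.1 hy
        obtain ⟨w1', hw1', rfl⟩ := Finset.mem_image.1 hy'
        rw [add_sub_add_left_eq_sub]
        show (nsmulAddMonoidHom (q ^ 1) : X 3 →+ X 3) _ = 0
        rw [pow_one]
        show q • (orb q (fun i => (w3 i).val) (fun i => (w2 i).val) (fun i => (w1 i).val) -
          orb q (fun i => (w3 i).val) (fun i => (w2 i).val) (fun i => (w1' i).val) : X 3) = 0
        funext i
        have hq0 : (q : ℝ) ≠ 0 := by positivity
        rw [Pi.smul_apply, Pi.zero_apply, Pi.sub_apply]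
        have h3 : (orb q (fun i => (w3 i).val) (fun i => (w2 i).val) (fun i => (w1 i).val)) i -
          (orb q (fun i => (w3 i).val) (fun i => (w2 i).val) (fun i => (w1' i).val)) i =
          ((((((w1 i).val : ℤ) - ((w1' i).val : ℤ) : ℤ) : ℝ) / (q : ℝ) : ℝ) :
            UnitAddCircle) := by
          simp only [orb, tor]
          rw [← AddCircle.coe_sub]
          congr 1
          push_cast
          field_simp
          ring
        rw [h3, kill q hq1])
    rw [Finset.card_image_of_injOn] at key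
    · exact key
    · intro w1 _ w1' _ h
      have h1 : orb q (fun i => (w3 i).val) (fun i => (w2 i).val) (fun i => (w1 i).val) =
          orb q (fun i => (w3 i).val) (fun i => (w2 i).val) (fun i => (w1' i).val) :=
        add_left_cancel h
      have h2 := (hTO4 3 _ _).1 h1
      funext i
      apply zval
      have h3 := h2 i
      push_cast at h3
      have h4 : ((w3 i).val : ℤ) + q * (w2 i).val + q ^ 2 * (w1 i).val -
          (((w3 i).val : ℤ) + q * (w2 i).val + q ^ 2 * (w1' i).val) =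
          (q : ℤ) ^ 2 * (((w1 i).val : ℤ) - ((w1' i).val : ℤ)) := by ring
      rw [h4, pow_succ] at h3
      have hq2 : ((q : ℤ) ^ 2) ≠ 0 := by positivity
      exact (mul_dvd_mul_iff_left hq2).1 h3
  · intro b r s Y hY
    have hY' : ∀ t ∈ Y, phi q b.val a + cel q r.val s.val t.val ∈ W 1 := by
      intro t ht
      simpa [A1s] using hY t ht
    have key := hL1 (Y.image fun t : ZMod q => phi q b.val a + cel q r.val s.val t.val) (by
        intro y hy
        obtain ⟨t, ht, rfl⟩ := Finset.mem_image.1 hy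
        exact hY' t ht) (by
        intro y hy y' hy'
        obtain ⟨t, ht, rfl⟩ := Finset.mem_image.1 hy
        obtain ⟨t', ht', rfl⟩ := Finset.mem_image.1 hy'
        rw [add_sub_add_left_eq_sub]
        exact cel_Ln q hq1 _ _ _ _)
    rw [Finset.card_image_of_injOn] at key
    · exact key
    · intro t _ t' _ h
      have h1 : cel q r.val s.val t.val = cel q r.val s.val t'.val := add_left_cancel h
      apply zval
      rw [← cz q hq1, ← cel_sub0 q hq1 r.val s.val t.val s.val t'.val, h1, sub_self]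
      rfl
  · intro b Y hY
    have hY' : ∀ r : ZMod q, ∃ st : ZMod q × ZMod q, r ∈ Y →
        phi q b.val a + cel q r.val st.1.val st.2.val ∈ W 1 := by
      intro r
      by_cases hr : r ∈ Y
      · obtain ⟨s, t, hst⟩ := hY r hr
        refine ⟨(s, t), fun _ => ?_⟩
        simpa [A1s] using hst
      · exact ⟨(0, 0), fun h => absurd h hr⟩
    choose st hst using hY'
    have hD : ∀ r : ZMod q, ∃ D : Finset ℕ, r ∈ Y → (D ⊆ range q ∧ (∀ b1 ∈ D,
        phi q b1 (phi q b.val a + cel q r.val (st r).1.val (st r).2.val) ∈ W 2) ∧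
        n₁ ≤ (D.card : ℝ)) := by
      intro r
      by_cases hr : r ∈ Y
      · obtain ⟨D, hD⟩ := hK1 _ (hst r hr)
        exact ⟨D, fun _ => hD⟩
      · exact ⟨∅, fun h => absurd h hr⟩
    choose D hD using hD
    have hfib : ∀ b1 ∈ range q, ((Y.filter fun r => b1 ∈ D r).card : ℝ) ≤ G₂ := by
      intro b1 _
      have key := hL2 ((Y.filter fun r => b1 ∈ D r).image fun r : ZMod q =>
        phi q b1 (phi q b.val a) + l1 q r.val) (by
          intro y hy
          obtain ⟨r, hr, rfl⟩ := Finset.mem_image.1 hy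
          obtain ⟨hrY, hrD⟩ := Finset.mem_filter.1 hr
          have h1 := (hD r hrY).2.1 b1 hrD
          rw [map_add, phi_cel q hq1] at h1
          exact h1) (by
          intro y hy y' hy'
          obtain ⟨r, hr, rfl⟩ := Finset.mem_image.1 hy
          obtain ⟨r', hr', rfl⟩ := Finset.mem_image.1 hy'
          rw [add_sub_add_left_eq_sub]
          exact l1_Ln q hq1 _ _)
      rw [Finset.card_image_of_injOn] at key
      · exact key
      · intro r _ r' _ h
        exact l1_inj q hq1 r r' (add_left_cancel h)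
    have hcount : ∑ r ∈ Y, (D r).card = ∑ b1 ∈ range q, (Y.filter fun r => b1 ∈ D r).card := by
      have h1 : ∀ r ∈ Y, (D r).card = ∑ b1 ∈ range q, if b1 ∈ D r then 1 else 0 := by
        intro r hr
        rw [← Finset.card_filter]
        congr 1
        ext x
        simp only [Finset.mem_filter, Finset.mem_range]
        constructor
        · intro hx
          exact ⟨Finset.mem_range.1 ((hD r hr).1 hx), hx⟩
        · exact fun hx => hx.2
      rw [Finset.sum_congr rfl h1, Finset.sum_comm]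
      apply Finset.sum_congr rfl
      intro b1 _
      rw [Finset.card_filter]
    rw [le_div_iff₀ hn1pos]
    calc (Y.card : ℝ) * n₁ = ∑ _r ∈ Y, n₁ := by rw [Finset.sum_const, nsmul_eq_mul]
      _ ≤ ∑ r ∈ Y, ((D r).card : ℝ) := Finset.sum_le_sum fun r hr => (hD r hr).2.2
      _ = ((∑ r ∈ Y, (D r).card : ℕ) : ℝ) := by push_cast; rfl
      _ = ((∑ b1 ∈ range q, (Y.filter fun r => b1 ∈ D r).card : ℕ) : ℝ) := by rw [hcount]
      _ = ∑ b1 ∈ range q, ((Y.filter fun r => b1 ∈ D r).card : ℝ) := by push_cast; rfl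
      _ ≤ ∑ _b1 ∈ range q, G₂ := Finset.sum_le_sum hfib
      _ = q * G₂ := by rw [Finset.sum_const, nsmul_eq_mul, Finset.card_range]
  · intro b r Y hY
    have hY' : ∀ s : ZMod q, ∃ t : ZMod q, s ∈ Y →
        phi q b.val a + cel q r.val s.val t.val ∈ W 1 := by
      intro s
      by_cases hs : s ∈ Y
      · obtain ⟨t, ht⟩ := hY s hs
        refine ⟨t, fun _ => ?_⟩
        simpa [A1s] using ht
      · exact ⟨0, fun h => absurd h hs⟩
    choose t ht using hY'
    have key := hC1 (Y.image fun s : ZMod q => phi q b.val a + cel q r.val s.val (t s).val) (by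
        intro y hy
        obtain ⟨s, hs, rfl⟩ := Finset.mem_image.1 hy
        exact ht s hs) (by
        intro y hy y' hy'
        obtain ⟨s, hs, rfl⟩ := Finset.mem_image.1 hy
        obtain ⟨s', hs', rfl⟩ := Finset.mem_image.1 hy'
        rw [add_sub_add_left_eq_sub]
        exact cel_H q hq1 _ _ _ _ _)
    rw [Finset.card_image_of_injOn] at key
    · exact key
    · intro s _ s' _ h
      have h1 : cel q r.val s.val (t s).val = cel q r.val s'.val (t s').val := add_left_cancel h
      apply zval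
      rw [← cz q hq1, ← cel_sub1 q r.val s.val (t s).val r.val s'.val (t s').val, h1, sub_self]
      rfl

end Pool.Agent.H6.CLV
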